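import Pool.Agent.MP_93f6c7_pr.K.MainS

set_option autoImplicit false
open MeasureTheory

namespace Pool.Agent.Results.MP_93f6c7_pr.Expander

open Pool.Agent.MP_93f6c7_pr.K

/-- An invariant random labelling of the regular tree by distinct labels whose adjacency operator
has a (one-sided) spectral gap has, as a factor, a proper edge colouring with as many colours as
the degree. -/
theorem result :
    ∀ (Δ : ℕ), 3 ≤ Δ → ∀ (V : Type) (G : SimpleGraph V) [G.LocallyFinite], G.IsTree →
      G.IsRegularOfDegree Δ →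
      ∀ (ν : Measure (V → unitInterval)), IsProbabilityMeasure ν →
        (∀ φ : G ≃g G, ν.map (fun (x : V → unitInterval) (i : V) => x (φ i)) = ν) →
        (∀ u v : V, u ≠ v → ∀ᵐ x ∂ν, x u ≠ x v) →
        (∃ ρ : ℝ, ρ < Δ ∧
          ∀ (H : (V → unitInterval) → V → ℝ), (∀ v : V, Measurable fun x => H x v) →
            (∃ B : ℝ, ∀ x v, |H x v| ≤ B) →
            (∀ (φ : G ≃g G) (x : V → unitInterval) (v : V),
              H (fun i : V => x (φ i)) v = H x (φ v)) →
            ∀ o : V, ∫ x, H x o ∂ν = 0 →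
              ∫ x, H x o * ∑ w ∈ G.neighborFinset o, H x w ∂ν ≤ ρ * ∫ x, H x o ^ 2 ∂ν) →
        ∃ F : (V → unitInterval) → (Sym2 V → Fin Δ), Measurable F ∧
          (∀ (φ : G ≃g G) (x : V → unitInterval) (e : Sym2 V),
            F (fun i : V => x (φ i)) e = F x (Sym2.map φ e)) ∧
          ∀ᵐ x ∂ν, ∀ u v w : V, G.Adj u v → G.Adj u w → v ≠ w →
            F x s(u, v) ≠ F x s(u, w) := by
  intro Δ hΔ V G _ hT hd ν hν hinv hinj ⟨ρ, hρ, hgap⟩
  let : MeasurableSpace V := ⊤
  have : DiscreteMeasurableSpace V := ⟨fun _ => trivial⟩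
  have : Countable V := FinalEX.countable_of_connected hT.connected
  obtain ⟨o⟩ := hT.connected.nonempty
  let E : Env G := ⟨ν, hν, fun φ => ⟨by fun_prop, hinv φ⟩⟩
  exact mainS (E := E) ⟨hT, hd.degree_eq, hΔ⟩ o hinj hρ
    fun f hf h0 => hgap f (fun v => meas_at hf.meas v) hf.bdd hf.inv o h0

end Pool.Agent.Results.MP_93f6c7_pr.Expander
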