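import Pool.Agent.Mg.S19483.G11beb3
import Pool.Agent.Mg.S19483.G2d2f3f
import Pool.Agent.Mg.S19483.G391b6c
import Pool.Agent.Mg.S19483.G8e168a
import Pool.Agent.MP_93f6c7_pr.StabC

set_option autoImplicit false
open MeasureTheory

namespace Pool.Agent.Results.MP_93f6c7_pr.Stable

open Pool.Agent.MP_93f6c7_pr

/-- Stability: a factor of iid edge colouring with few conflicts is close to a proper one. -/
theorem result :
    ∀ (Δ : ℕ), 3 ≤ Δ → ∀ (V : Type) (G : SimpleGraph V), G.IsTree →
      (∀ v : V, (G.neighborSet v).ncard = Δ) →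
      ∃ C : ℝ, ∀ (F : (V → unitInterval) → (Sym2 V → Fin Δ)), Measurable F →
        (∀ (φ : G ≃g G) (x : V → unitInterval) (e : Sym2 V),
          F (fun i : V => x (φ i)) e = F x (Sym2.map φ e)) →
        ∃ F' : (V → unitInterval) → (Sym2 V → Fin Δ), Measurable F' ∧
          (∀ (φ : G ≃g G) (x : V → unitInterval) (e : Sym2 V),
            F' (fun i : V => x (φ i)) e = F' x (Sym2.map φ e)) ∧
          (∀ᵐ x ∂(Measure.infinitePi (fun _ : V => (volume : Measure unitInterval))),
            ∀ u v w : V, G.Adj u v → G.Adj u w → v ≠ w → F' x s(u, v) ≠ F' x s(u, w)) ∧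
          ∀ o : V,
            (Measure.infinitePi (fun _ : V => (volume : Measure unitInterval))).real
                {x | ∃ v, G.Adj o v ∧ F' x s(o, v) ≠ F x s(o, v)} ≤
              C * (Measure.infinitePi (fun _ : V => (volume : Measure unitInterval))).real
                {x | ∃ v w, G.Adj o v ∧ G.Adj o w ∧ v ≠ w ∧ F x s(o, v) = F x s(o, w)} ^
                  (1 / 9 : ℝ) := by
  intro Δ hΔ V G hT hd
  let : G.LocallyFinite := fun v =>
    (Set.finite_of_ncard_ne_zero (by rw [hd v]; omega)).fintype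
  let : MeasurableSpace V := ⊤
  have : DiscreteMeasurableSpace V := ⟨fun _ => trivial⟩
  have : Countable V := Fin'.countable_of_connected hT.connected
  have h : RT G Δ := ⟨hT, fun v => by
    rw [← hd v, ← SimpleGraph.card_neighborSet_eq_degree, Set.ncard_eq_toFinset_card',
      Set.toFinset_card], hΔ⟩
  obtain ⟨o⟩ := hT.connected.nonempty
  have hs := hasSwaps h
  obtain ⟨C, hC⟩ := Stab.main h hs o (improve_of_run h hs o
    (runStmt h hs o (flipStmt h hs o) (l2Stmt h hs o (hasGap h hs o))))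
  refine ⟨C, fun F hm hF => ?_⟩
  obtain ⟨F', h1, h2, h3, h4⟩ := hC F hm hF
  refine ⟨F', h1, h2, h3, fun o' => ?_⟩
  have e1 : ∀ v w, Fin'.mu V {x | Stab.Cf G (F x) w} ≤ Fin'.mu V {x | Stab.Cf G (F x) v} :=
    Stab.move hT.connected hs fun φ x v => Stab.Cf_map φ (hF φ x)
  have e2 := Stab.move hT.connected hs
    (E := fun x o => ∃ v, G.Adj o v ∧ F' x s(o, v) ≠ F x s(o, v)) (fun φ x u => by
      rw [φ.surjective.exists (p := fun v => G.Adj (φ u) v ∧ F' x s(φ u, v) ≠ F x s(φ u, v))]
      simp only [hF φ x, h2 φ x, Sym2.map_mk, φ.map_adj_iff]) o o'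
  refine (ENNReal.toReal_mono (measure_ne_top _ _) e2).trans (h4.trans (le_of_eq ?_))
  rw [Measure.real, le_antisymm (e1 o' o) (e1 o o')]
  rfl

end Pool.Agent.Results.MP_93f6c7_pr.Stable
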